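import Pool.Agent.Y373.SX.Fin2
import Pool.Agent.Y373.SX.Vol
import Pool.Agent.Y373.SX.Sep
import Pool.Agent.Y373.SX.Shift
import Pool.Agent.Y373.SX.Cover
import Pool.Agent.Y373.SX.Simp
import Pool.Agent.Y373.SX.Num
import Pool.Agent.Y373.SX.Vor
import Pool.Agent.Y373.SX.Group
import Pool.Agent.Y373.SX.Free
import Pool.Agent.Y373.SX.Color2
import Pool.Agent.Y373.SX.Vlow
import Pool.Agent.Y373.SX.Gprod
import Pool.Agent.Y373.SX.Gauss
import Pool.Agent.Y373.SX.Covexp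
import Pool.Agent.Y373.SX.Pick
import Pool.Agent.Y373.SX.Cent2
import Pool.Agent.Y373.SX.Par2

/-!
# Colourings of `ℝⁿ` without monochromatic unit simplices with `k + 1` vertices
-/

set_option autoImplicit false

namespace Pool.Agent.Results.MP_3884c4_co.EveryK

open Pool.Agent.Y373.SX

theorem result :
    -- every `k`: the exponential base is at most `1 + (k + 1) ^ (1 / (2 k)) * √((k + 1) / k)`
    (∀ k : ℕ, 1 ≤ k → ∀ β : ℝ,
      1 + ((k : ℝ) + 1) ^ (1 / (2 * (k : ℝ))) * √(((k : ℝ) + 1) / k) < β →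
      ∀ᶠ n : ℕ in Filter.atTop, ∃ m : ℕ, (m : ℝ) ≤ β ^ n ∧
        ∃ c : EuclideanSpace ℝ (Fin n) → Fin m,
          ∀ x : Fin (k + 1) → EuclideanSpace ℝ (Fin n),
            (∀ i j, i ≠ j → dist (x i) (x j) = 1) → ¬ ∀ i j, c (x i) = c (x j)) ∧
    -- the limit for large `k`
    (∀ ε : ℝ, 0 < ε → ∃ k : ℕ, ∀ᶠ n : ℕ in Filter.atTop, ∃ m : ℕ, (m : ℝ) ≤ (2 + ε) ^ n ∧
      ∃ c : EuclideanSpace ℝ (Fin n) → Fin m,
        ∀ x : Fin (k + 1) → EuclideanSpace ℝ (Fin n),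
          (∀ i j, i ≠ j → dist (x i) (x j) = 1) → ¬ ∀ i j, c (x i) = c (x j)) := by
  have hcover : S_cover := cover (shift cubes)
  have hsep : S_sep := sep vol cubes
  have hcent : S_cent2 := cent2 vol cubes
    (pick vol cubes vlow (gauss cubes gprod) (covexp vol cubes))
  have hmain : S_main2 := main2 vor1 (vor2 vol vor1) (free simp_facts vor1 group)
    (color2 vol hsep hcover) hcent num par2
  refine ⟨hmain, fun ε hε => ?_⟩
  obtain ⟨k, hk, hlt⟩ := lim2 ε hε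
  exact ⟨k, hmain k hk (2 + ε) hlt⟩

end Pool.Agent.Results.MP_3884c4_co.EveryK
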